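import Pool.Agent.H41.Ortho.Level

set_option autoImplicit false

/-!
# Lemma P: finitely many level data cannot cover a label on all sheets (MP_adc54a_gt)
-/

namespace Pool.Agent.H41.Ortho

variable {ρ n : ℕ} {Q : ℕ → LD}

open Classical in
/-- the sheets in which `j` is covered by a root set inside `T'` -/
noncomputable def act (ρ n : ℕ) (Q : ℕ → LD) (T' : Finset J) (j : J) : Finset ℕ :=
  (Finset.range n).filter (fun i => ∃ r < ρ, ∃ b, (Q r).Root n b ∧ (Q r).G n b i ⊆ T' ∧
    j ∈ (Q r).G n b i)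

theorem mem_act {T' : Finset J} {j : J} {i : ℕ} : i ∈ act ρ n Q T' j ↔
    i < n ∧ ∃ r < ρ, ∃ b, (Q r).Root n b ∧ (Q r).G n b i ⊆ T' ∧ j ∈ (Q r).G n b i := by
  simp [act]

open Classical in
/-- the data for which `a` is a root -/
noncomputable def S (ρ n : ℕ) (Q : ℕ → LD) (a : ℕ) : Finset ℕ :=
  (Finset.range ρ).filter (fun r => (Q r).Root n a)

theorem mem_S {a r : ℕ} : r ∈ S ρ n Q a ↔ r < ρ ∧ (Q r).Root n a := by
  simp [S]

/-- good points -/
structure Good (ρ n : ℕ) (Q : ℕ → LD) (N M t : ℕ) (a : ℕ) : Prop where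
  ge : N ≤ a
  closed : ∀ j ∈ T a, T j.1 ⊆ T a
  owners : ∀ j ∈ T a, N ≤ j.1
  cardS : (S ρ n Q a).card ≤ t
  act_le : ∀ j, (act ρ n Q (T a) j).card ≤ M

theorem Good.mono {N N' M t a : ℕ} (h : Good ρ n Q N' M t a) (hN : N ≤ N') :
    Good ρ n Q N M t a :=
  ⟨le_trans hN h.ge, h.closed, fun j hj => le_trans hN (h.owners j hj), h.cardS, h.act_le⟩

theorem pigeon {α : Type} (C : Finset α) (f : ℕ → α) (hf : ∀ N, f N ∈ C) :
    ∃ c ∈ C, ∀ N, ∃ N', N ≤ N' ∧ f N' = c := by
  classical
  by_contra h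
  push Not at h
  choose! B hB using h
  exact hB (f (C.sup B)) (hf _) (C.sup B) (Finset.le_sup (f := B) (hf _)) rfl

/-- the fresh part of the datum -/
def Gam (Q : LD) (a : ℕ) : Finset J := (Q.F a).filter (fun j => j.1 = a)

theorem mem_Gam {Q : LD} {a : ℕ} {j : J} : j ∈ Gam Q a ↔ j ∈ Q.F a ∧ j.1 = a := by
  simp [Gam]

/-- For a root, the labels owned by the point itself. -/
theorem root_labels {Q : LD} {n a i : ℕ} (hR : Q.Root n a) {j : J} :
    (j ∈ Q.G n a i ∧ j.1 = a) ↔ j ∈ Gam Q a ∪ {Q.c i a} := by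
  rw [Finset.mem_union, Finset.mem_singleton, mem_Gam, LD.mem_G]
  constructor
  · rintro ⟨⟨b, hb, hj⟩ | ⟨_, hj | hj⟩, h2⟩
    · have := T_lt (hb.2 hj)
      omega
    · exact Or.inl ⟨hj, h2⟩
    · exact Or.inr hj
  · rintro (⟨h1, h2⟩ | h1)
    · exact ⟨Or.inr ⟨hR, Or.inl h1⟩, h2⟩
    · exact ⟨Or.inr ⟨hR, Or.inr h1⟩, by rw [h1]; rfl⟩

theorem exists_seq {N M t : ℕ} {S' : Finset ℕ} {s : ℕ}
    (h : ∀ N, ∃ a, Good ρ n Q N M t a ∧ S ρ n Q a = S' ∧
      ∀ r ∈ S', (Gam (Q s) a).card ≤ (Gam (Q r) a).card) :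
    ∃ a lo : ℕ → ℕ, (∀ l, Good ρ n Q (lo l) M t (a l) ∧ S ρ n Q (a l) = S' ∧
      ∀ r ∈ S', (Gam (Q s) (a l)).card ≤ (Gam (Q r) (a l)).card) ∧
      (∀ l, N ≤ lo l) ∧ (∀ l l', l < l' → a l < lo l') := by
  choose p hp using h
  let a : ℕ → ℕ := fun l => Nat.rec (p N) (fun _ prev => p (prev + 1)) l
  let lo : ℕ → ℕ := fun l => Nat.casesOn l N (fun l' => a l' + 1)
  have ha0 : a 0 = p N := rfl
  have ha1 : ∀ l, a (l + 1) = p (a l + 1) := fun l => rfl
  have hlo : ∀ l, a l = p (lo l) := by
    intro l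
    cases l with
    | zero => rfl
    | succ l => rfl
  have hle : ∀ l, lo l ≤ a l := by
    intro l
    rw [hlo]
    exact (hp (lo l)).1.ge
  have hlt : ∀ l, a l < a (l + 1) := by
    intro l
    have h1 : lo (l + 1) ≤ a (l + 1) := hle (l + 1)
    have h2 : lo (l + 1) = a l + 1 := rfl
    omega
  have hmono : StrictMono a := strictMono_nat_of_lt_succ hlt
  refine ⟨a, lo, ?_, ?_, ?_⟩
  · intro l
    rw [hlo l]
    exact hp (lo l)
  · intro l
    cases l with
    | zero => exact le_refl N
    | succ l =>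
      have h1 : N ≤ a 0 := hle 0
      have h2 : a 0 ≤ a l := hmono.monotone (Nat.zero_le l)
      have h3 : lo (l + 1) = a l + 1 := rfl
      omega
  · intro l l' hll
    cases l' with
    | zero => omega
    | succ l' =>
      have h1 : a l ≤ a l' := hmono.monotone (by omega)
      have h3 : lo (l' + 1) = a l' + 1 := rfl
      omega

theorem step_aux {N M t : ℕ} {S' : Finset ℕ} {s : ℕ} (hs : s ∈ S')
    (h : ∀ N, ∃ a, Good ρ n Q N M (t + 1) a ∧ S ρ n Q a = S' ∧
      ∀ r ∈ S', (Gam (Q s) a).card ≤ (Gam (Q r) a).card) :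
    ∃ a, Good ρ n Q N (M + ρ) t a := by
  classical
  obtain ⟨a, lo, hg, hN, hlt⟩ := exists_seq (N := N) h
  -- the components
  let comp : ℕ → Finset J := fun l => T (a l) ∪ (Gam (Q s) (a l) ∪ {(Q s).c l (a l)})
  have hcomp : ∀ l j, j ∈ comp l → lo l ≤ j.1 ∧ j.1 ≤ a l ∧ (j.1 < a l → j ∈ T (a l)) ∧
      (j.1 = a l → j ∈ Gam (Q s) (a l) ∪ {(Q s).c l (a l)}) ∧ T j.1 ⊆ T (a l) := by
    intro l j hj
    rcases Finset.mem_union.1 hj with hj | hj
    · have h1 := T_lt hj
      exact ⟨(hg l).1.owners j hj, h1.le, fun _ => hj, fun h => by omega, (hg l).1.closed j hj⟩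
    · have h1 : j.1 = a l := by
        rcases Finset.mem_union.1 hj with hj | hj
        · exact (mem_Gam.1 hj).2
        · rw [Finset.mem_singleton.1 hj]; rfl
      refine ⟨?_, h1.le, fun h => by omega, fun _ => hj, by rw [h1]⟩
      rw [h1]
      exact (hg l).1.ge
  have huniq : ∀ l l' x, lo l ≤ x → x ≤ a l → lo l' ≤ x → x ≤ a l' → l = l' := by
    intro l l' x h1 h2 h3 h4
    rcases lt_trichotomy l l' with h | h | h
    · have := hlt l l' h; omega
    · exact h
    · have := hlt l' l h; omega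
  let TT : Finset J := (Finset.range n).biUnion comp
  have hTT : ∀ j, j ∈ TT ↔ ∃ l < n, j ∈ comp l := by
    intro j
    simp [TT]
  have hTsub : ∀ l < n, T (a l) ⊆ TT := by
    intro l hl j hj
    rw [hTT]
    exact ⟨l, hl, Finset.mem_union_left _ hj⟩
  obtain ⟨w, hw, hTw⟩ := T_ex TT (max N ((Finset.range n).sup (fun l => (Q s).H (a l))))
  have hwH : ∀ l < n, (Q s).H (a l) ≤ w := by
    intro l hl
    exact le_trans (le_trans (Finset.le_sup (f := fun l => (Q s).H (a l))
      (Finset.mem_range.2 hl)) (le_max_right _ _)) hw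
  refine ⟨w, le_trans (le_max_left _ _) hw, ?_, ?_, ?_, ?_⟩
  · -- closed
    intro j hj
    rw [hTw] at *
    obtain ⟨l, hl, hj⟩ := (hTT j).1 hj
    exact (hcomp l j hj).2.2.2.2.trans (hTsub l hl)
  · intro j hj
    rw [hTw] at hj
    obtain ⟨l, hl, hj⟩ := (hTT j).1 hj
    exact le_trans (hN l) (hcomp l j hj).1
  · -- S
    have hsub : S ρ n Q w ⊆ S'.erase s := by
      intro r hr
      rw [mem_S] at hr
      obtain ⟨hr, i, hi, hno⟩ := hr
      rw [Finset.mem_erase]
      constructor
      · rintro rfl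
        apply hno (a i)
        refine ⟨hwH i hi, ?_⟩
        rw [hTw]
        intro j hj
        rw [hTT]
        refine ⟨i, hi, ?_⟩
        have hroot : (Q r).Root n (a i) := by
          have : r ∈ S ρ n Q (a i) := by rw [(hg i).2.1]; exact hs
          exact (mem_S.1 this).2
        rcases (Q r).G_sub (a i) i j hj with h1 | h1
        · exact Finset.mem_union_left _ h1
        · exact Finset.mem_union_right _ ((root_labels hroot).1 ⟨hj, h1⟩)
      · by_contra hrS
        have h0 : 0 < n := by omega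
        rw [← (hg 0).2.1, mem_S] at hrS
        push Not at hrS
        have hnr := hrS hr
        unfold LD.Root at hnr
        push Not at hnr
        obtain ⟨b, hb⟩ := hnr i hi
        apply hno b
        refine ⟨?_, ?_⟩
        · have h1 := hwH 0 h0
          have h2 := (Q s).lt_H (a 0)
          have h3 := hb.1
          omega
        · rw [hTw]
          exact hb.2.trans (hTsub 0 h0)
    have h1 := Finset.card_le_card hsub
    rw [Finset.card_erase_of_mem hs] at h1
    have h2 := (hg 0).1.cardS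
    rw [(hg 0).2.1] at h2
    omega
  · intro j
    rw [hTw]
    by_cases hj : j ∈ TT
    · obtain ⟨l, hl, hjl⟩ := (hTT j).1 hj
      have hsub : act ρ n Q TT j ⊆ act ρ n Q (T (a l)) j ∪
          S'.biUnion (fun r => (Finset.range n).filter (fun i => (Q r).G n (a l) i ⊆ TT)) := by
        intro i hi
        obtain ⟨hi, r, hr, b, hRb, hGb, hjb⟩ := mem_act.1 hi
        have hc : (Q r).c i b ∈ (Q r).G n b i := by
          rw [LD.mem_G]
          exact Or.inr ⟨hRb, Or.inr rfl⟩
        obtain ⟨l', hl', hcl'⟩ := (hTT _).1 (hGb hc)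
        obtain ⟨h1, h2, h3, h4, h5⟩ := hcomp l' _ hcl'
        simp only [LD.c_fst] at h1 h2 h3 h4 h5
        obtain ⟨g1, g2, g3, g4, g5⟩ := hcomp l _ hjl
        have hll : l' = l := by
          rcases (Q r).G_sub b i j hjb with h6 | h6
          · have h7 := h5 h6
            have h8 := (hg l').1.owners j h7
            have h9 := T_lt h7
            exact huniq l' l j.1 h8 h9.le g1 g2
          · rw [h6] at g1 g2
            exact huniq l' l b h1 h2 g1 g2
        subst hll
        rw [Finset.mem_union]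
        by_cases hb : b = a l'
        · right
          rw [Finset.mem_biUnion]
          refine ⟨r, ?_, ?_⟩
          · rw [← (hg l').2.1, mem_S]
            rw [← hb]
            exact ⟨hr, hRb⟩
          · rw [Finset.mem_filter, Finset.mem_range]
            rw [← hb]
            exact ⟨hi, hGb⟩
        · left
          have hblt : b < a l' := lt_of_le_of_ne h2 hb
          rw [mem_act]
          refine ⟨hi, r, hr, b, hRb, ?_, hjb⟩
          intro j' hj'
          rcases (Q r).G_sub b i j' hj' with h6 | h6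
          · exact h5 h6
          · obtain ⟨l'', hl'', hjl''⟩ := (hTT _).1 (hGb hj')
            obtain ⟨k1, k2, k3, k4, k5⟩ := hcomp l'' _ hjl''
            rw [h6] at k1 k2 k3
            have hll : l'' = l' := huniq l'' l' b k1 k2 h1 h2
            subst hll
            exact k3 hblt
      have hcard : (S'.biUnion (fun r => (Finset.range n).filter
          (fun i => (Q r).G n (a l) i ⊆ TT))).card ≤ ρ := by
        have hS'ρ : S'.card ≤ ρ := by
          rw [← (hg l).2.1]
          calc (S ρ n Q (a l)).card ≤ (Finset.range ρ).card := Finset.card_le_card (by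
                intro x hx; exact Finset.mem_range.2 (mem_S.1 hx).1)
            _ = ρ := Finset.card_range ρ
        refine le_trans Finset.card_biUnion_le ?_
        refine le_trans (Finset.sum_le_card_nsmul _ _ 1 ?_) (by simpa using hS'ρ)
        intro r hr
        rw [Finset.card_le_one]
        intro i hi i' hi'
        rw [Finset.mem_filter] at hi hi'
        by_contra hne
        have hroot : (Q r).Root n (a l) := by
          have : r ∈ S ρ n Q (a l) := by rw [(hg l).2.1]; exact hr
          exact (mem_S.1 this).2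
        have hX : ∀ i, (Q r).G n (a l) i ⊆ TT → Gam (Q r) (a l) ∪ {(Q r).c i (a l)} ⊆
            Gam (Q s) (a l) ∪ {(Q s).c l (a l)} := by
          intro i hi j hj
          obtain ⟨h1, h2⟩ := (root_labels hroot).2 hj
          obtain ⟨l'', hl'', hjl''⟩ := (hTT _).1 (hi h1)
          obtain ⟨k1, k2, k3, k4, k5⟩ := hcomp l'' _ hjl''
          rw [h2] at k1 k2
          have hll : l'' = l := huniq l'' l (a l) k1 k2 (hg l).1.ge le_rfl
          subst hll
          exact k4 h2
        have h1 := hX i hi.2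
        have h2 := hX i' hi'.2
        have h3 : insert ((Q r).c i' (a l)) (insert ((Q r).c i (a l)) (Gam (Q r) (a l))) ⊆
            Gam (Q s) (a l) ∪ {(Q s).c l (a l)} := by
          intro x hx
          rw [Finset.mem_insert, Finset.mem_insert] at hx
          rcases hx with hx | hx | hx
          · exact h2 (by rw [hx]; simp)
          · exact h1 (by rw [hx]; simp)
          · exact h1 (Finset.mem_union_left _ hx)
        have h4 := Finset.card_le_card h3
        have n1 : (Q r).c i (a l) ∉ Gam (Q r) (a l) := fun hh => (Q r).c_not_mem _ _ (mem_Gam.1 hh).1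
        have n2 : (Q r).c i' (a l) ∉ insert ((Q r).c i (a l)) (Gam (Q r) (a l)) := by
          rw [Finset.mem_insert]
          rintro (hh | hh)
          · exact hne ((Q r).c_inj hh).symm
          · exact (Q r).c_not_mem _ _ (mem_Gam.1 hh).1
        rw [Finset.card_insert_of_notMem n2, Finset.card_insert_of_notMem n1] at h4
        have h5 : (Gam (Q s) (a l) ∪ {(Q s).c l (a l)}).card ≤ (Gam (Q s) (a l)).card + 1 :=
          le_trans (Finset.card_union_le _ _) (by simp)
        have h6 := (hg l).2.2 r hr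
        omega
      have h1 := Finset.card_le_card hsub
      have h2 := Finset.card_union_le (act ρ n Q (T (a l)) j)
        (S'.biUnion (fun r => (Finset.range n).filter (fun i => (Q r).G n (a l) i ⊆ TT)))
      have h3 := (hg l).1.act_le j
      omega
    · have : act ρ n Q TT j = ∅ := by
        rw [Finset.eq_empty_iff_forall_notMem]
        intro i hi
        obtain ⟨hi, r, hr, b, hRb, hGb, hjb⟩ := mem_act.1 hi
        exact hj (hGb hjb)
      rw [this]
      simp

theorem step {M t : ℕ} (h : ∀ N, ∃ a, Good ρ n Q N M (t + 1) a) :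
    ∀ N, ∃ a, Good ρ n Q N (M + ρ) t a := by
  classical
  choose g hg using h
  -- a minimiser
  have hmin : ∀ N, ∃ s, s ∈ insert 0 (Finset.range ρ) ∧ ((S ρ n Q (g N)).Nonempty →
      s ∈ S ρ n Q (g N) ∧ ∀ r ∈ S ρ n Q (g N), (Gam (Q s) (g N)).card ≤ (Gam (Q r) (g N)).card) := by
    intro N
    by_cases hne : (S ρ n Q (g N)).Nonempty
    · obtain ⟨s, hs, hmin⟩ := Finset.exists_min_image _ (fun r => (Gam (Q r) (g N)).card) hne
      exact ⟨s, Finset.mem_insert_of_mem (Finset.mem_range.2 (mem_S.1 hs).1),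
        fun _ => ⟨hs, hmin⟩⟩
    · exact ⟨0, Finset.mem_insert_self _ _, fun h => absurd h hne⟩
  choose s hs1 hs2 using hmin
  obtain ⟨⟨S', s'⟩, -, hc⟩ := pigeon ((Finset.range ρ).powerset ×ˢ (insert 0 (Finset.range ρ)))
    (fun N => (S ρ n Q (g N), s N)) (by
      intro N
      rw [Finset.mem_product, Finset.mem_powerset]
      exact ⟨fun x hx => Finset.mem_range.2 (mem_S.1 hx).1, hs1 N⟩)
  simp only [Prod.mk.injEq] at hc
  by_cases hne : S'.Nonempty
  · intro N
    obtain ⟨N₁, hN₁, hS₁, hsN₁⟩ := hc 0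
    have hsS : s' ∈ S' := by
      have := hs2 N₁ (by rw [hS₁]; exact hne)
      rw [hS₁, hsN₁] at this
      exact this.1
    apply step_aux (s := s') hsS
    intro N
    obtain ⟨N', hN', hS', hs'⟩ := hc N
    refine ⟨g N', (hg N').mono hN', hS', ?_⟩
    have := hs2 N' (by rw [hS']; exact hne)
    rw [hS', hs'] at this
    exact this.2
  · intro N
    obtain ⟨N', hN', hS', hs'⟩ := hc N
    rw [Finset.not_nonempty_iff_eq_empty] at hne
    have h := (hg N').mono hN'
    refine ⟨g N', h.ge, h.closed, h.owners, ?_, fun j => le_trans (h.act_le j) (Nat.le_add_right _ _)⟩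
    rw [hS', hne]
    simp

theorem base (N : ℕ) : ∃ a, Good ρ n Q N 0 ρ a := by
  obtain ⟨w, hw, hT⟩ := T_ex ∅ N
  refine ⟨w, hw, ?_, ?_, ?_, ?_⟩
  · intro j hj; rw [hT] at hj; simp at hj
  · intro j hj; rw [hT] at hj; simp at hj
  · calc (S ρ n Q w).card ≤ (Finset.range ρ).card := Finset.card_le_card (by
                intro x hx; exact Finset.mem_range.2 (mem_S.1 hx).1)
      _ = ρ := Finset.card_range ρ
  · intro j
    rw [hT]
    have : act ρ n Q ∅ j = ∅ := by
      rw [Finset.eq_empty_iff_forall_notMem]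
      intro i hi
      obtain ⟨hi, r, hr, b, hRb, hGb, hjb⟩ := mem_act.1 hi
      exact absurd (hGb hjb) (Finset.notMem_empty _)
    rw [this]
    simp

theorem claim (m : ℕ) (hm : m ≤ ρ) : ∀ N, ∃ a, Good ρ n Q N (m * ρ) (ρ - m) a := by
  induction m with
  | zero =>
    intro N
    simpa using base (ρ := ρ) (n := n) (Q := Q) N
  | succ m ih =>
    have h1 := ih (by omega)
    have h2 : ρ - m = (ρ - (m + 1)) + 1 := by omega
    rw [h2] at h1
    have h3 := step h1
    intro N
    obtain ⟨a, ha⟩ := h3 N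
    refine ⟨a, ?_⟩
    rw [Nat.succ_mul]
    exact ha

/-- **Lemma P** -/
theorem lemmaP (ρ n : ℕ) (hn : ρ * ρ < n) (Q : ℕ → LD) :
    ∃ y, ∀ j : J, ∃ i < n, ∀ r < ρ, j ∉ (Q r).G n y i := by
  obtain ⟨y, hy⟩ := claim (ρ := ρ) (n := n) (Q := Q) ρ le_rfl 0
  refine ⟨y, ?_⟩
  intro j
  have hcard : (act ρ n Q (T y) j).card < (Finset.range n).card := by
    rw [Finset.card_range]
    exact lt_of_le_of_lt (hy.act_le j) hn
  obtain ⟨i, hi, hni⟩ := Finset.exists_mem_notMem_of_card_lt_card hcard
  refine ⟨i, Finset.mem_range.1 hi, ?_⟩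
  intro r hr hj
  apply hni
  have hnr : ¬ (Q r).Root n y := by
    intro hR
    have h1 : r ∈ S ρ n Q y := mem_S.2 ⟨hr, hR⟩
    have h2 := hy.cardS
    rw [Nat.sub_self, Nat.le_zero, Finset.card_eq_zero] at h2
    rw [h2] at h1
    exact absurd h1 (Finset.notMem_empty _)
  obtain ⟨b, hb1, hb2, hb3⟩ := (Q r).exists_root y hj hnr
  exact mem_act.2 ⟨Finset.mem_range.1 hi, r, hr, b, hb1, hb2.2, hb3⟩

end Pool.Agent.H41.Ortho
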