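import Mathlib

set_option autoImplicit false

/-!
# The combinatorial level for the orthocompactness counterexample (MP_adc54a_gt)

Labels are pairs `(owner, index)`.  `T w` is a finite set of labels with owners `< w`, and
every finite set of labels is `T w` for arbitrarily large `w`.
-/

namespace Pool.Agent.H41.Ortho

/-- labels `(owner, index)` -/
abbrev J : Type := ℕ × ℕ

theorem exists_T : ∃ T : ℕ → Finset J, (∀ w, ∀ j ∈ T w, j.1 < w) ∧
    (∀ (F : Finset J) (N : ℕ), ∃ w, N ≤ w ∧ T w = F) := by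
  obtain ⟨g, hg⟩ := exists_surjective_nat (Finset J × ℕ)
  classical
  refine ⟨fun w => if ∀ j ∈ (g w).1, j.1 < w then (g w).1 else ∅, ?_, ?_⟩
  · intro w j hj
    by_cases h : ∀ j ∈ (g w).1, j.1 < w
    · simp only [if_pos h] at hj
      exact h j hj
    · simp only [if_neg h] at hj
      simp at hj
  · intro F N
    -- infinitely many `w` with `(g w).1 = F`
    have hinf : Set.Infinite {w | (g w).1 = F} := by
      intro hfin
      have himg : (g '' {w | (g w).1 = F}).Finite := hfin.image g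
      have hsub : (Set.range fun m : ℕ => ((F, m) : Finset J × ℕ)) ⊆ g '' {w | (g w).1 = F} := by
        rintro _ ⟨m, rfl⟩
        obtain ⟨w, hw⟩ := hg (F, m)
        exact ⟨w, by simp [hw], hw⟩
      have := himg.subset hsub
      exact Set.infinite_range_of_injective (fun a b hab => by simpa using hab) this
    obtain ⟨w, hw, hlt⟩ := hinf.exists_gt (max N (F.sup Prod.fst))
    refine ⟨w, le_trans (le_max_left _ _) hlt.le, ?_⟩
    have hw' : (g w).1 = F := hw
    have : ∀ j ∈ (g w).1, j.1 < w := by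
      intro j hj
      rw [hw'] at hj
      have h1 : j.1 ≤ F.sup Prod.fst := Finset.le_sup (f := Prod.fst) hj
      exact lt_of_le_of_lt (le_trans h1 (le_max_right _ _)) hlt
    simp only [if_pos this]
    exact hw'

/-- the finite label set of a point -/
noncomputable def T : ℕ → Finset J := exists_T.choose

theorem T_lt {w : ℕ} {j : J} (hj : j ∈ T w) : j.1 < w := exists_T.choose_spec.1 w j hj

theorem T_ex (F : Finset J) (N : ℕ) : ∃ w, N ≤ w ∧ T w = F := exists_T.choose_spec.2 F N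

/-- basic neighbourhoods of `a` -/
def O (a : ℕ) (F : Finset J) (h : ℕ) : Set ℕ := {w | w = a ∨ (h ≤ w ∧ F ⊆ T w)}

theorem mem_O {a w : ℕ} {F : Finset J} {h : ℕ} : w ∈ O a F h ↔ w = a ∨ (h ≤ w ∧ F ⊆ T w) :=
  Iff.rfl

theorem self_mem_O (a : ℕ) (F : Finset J) (h : ℕ) : a ∈ O a F h := Or.inl rfl

theorem O_mono {a : ℕ} {F F' : Finset J} {h h' : ℕ} (hF : F ⊆ F') (hh : h ≤ h') :
    O a F' h' ⊆ O a F h := by
  rintro w (hw | ⟨h1, h2⟩)
  · exact Or.inl hw
  · exact Or.inr ⟨le_trans hh h1, hF.trans h2⟩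

theorem O_trans {a w : ℕ} {F : Finset J} {h : ℕ} (hw : w ∈ O a F h) (hne : w ≠ a)
    {F' : Finset J} {h' : ℕ} (hF : F ⊆ F') (hh : h ≤ h') : O w F' h' ⊆ O a F h := by
  rcases hw with hw | ⟨h1, h2⟩
  · exact absurd hw hne
  · rintro v (hv | ⟨h3, h4⟩)
    · rw [hv]; exact Or.inr ⟨h1, h2⟩
    · exact Or.inr ⟨le_trans hh h3, hF.trans h4⟩

/-- level datum -/
structure LD where
  /-- finite label sets -/
  F : ℕ → Finset J
  /-- thresholds -/
  h : ℕ → ℕ
  ok : ∀ a, ∀ j ∈ F a, j ∈ T a ∨ j.1 = a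

instance : Inhabited LD := ⟨⟨fun _ => ∅, fun _ => 0, by intro a j hj; simp at hj⟩⟩

namespace LD

variable (Q : LD)

/-- monotone thresholds -/
def H (a : ℕ) : ℕ := max (a + 1) ((Finset.range (a + 1)).sup Q.h)

theorem lt_H (a : ℕ) : a < Q.H a := lt_of_lt_of_le (Nat.lt_succ_self a) (le_max_left _ _)

theorem h_le_H (a : ℕ) : Q.h a ≤ Q.H a :=
  le_trans (Finset.le_sup (f := Q.h) (Finset.mem_range.2 (Nat.lt_succ_self a))) (le_max_right _ _)

theorem H_mono {a b : ℕ} (hab : a ≤ b) : Q.H a ≤ Q.H b := by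
  apply max_le_max
  · omega
  · apply Finset.sup_mono
    intro x hx
    rw [Finset.mem_range] at *
    omega

/-- fresh labels -/
def c (i a : ℕ) : J := (a, (Q.F a).sup Prod.snd + 1 + i)

theorem c_fst (i a : ℕ) : (Q.c i a).1 = a := rfl

theorem c_not_mem (i a : ℕ) : Q.c i a ∉ Q.F a := by
  intro h
  have := Finset.le_sup (f := Prod.snd) h
  simp only [c] at this
  omega

theorem c_inj {i i' a : ℕ} (h : Q.c i a = Q.c i' a) : i = i' := by
  simp only [c, Prod.mk.injEq, true_and] at h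
  omega

/-- the rule -/
noncomputable def G (n : ℕ) (a : ℕ) (i : ℕ) : Finset J :=
  open Classical in
  (Finset.univ.filter (fun b : Fin a => Q.H b ≤ a ∧ G n b i ⊆ T a)).biUnion (fun b => G n b i) ∪
  (if ∀ i' < n, ∃ b : Fin a, Q.H b ≤ a ∧ G n b i' ⊆ T a then ∅ else Q.F a ∪ {Q.c i a})
termination_by a
decreasing_by all_goals exact Fin.isLt _

/-- `b` is an ancestor of `a` in sheet `i` -/
def Anc (n i b a : ℕ) : Prop := Q.H b ≤ a ∧ Q.G n b i ⊆ T a

theorem Anc.lt {Q : LD} {n i b a : ℕ} (h : Q.Anc n i b a) : b < a :=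
  lt_of_lt_of_le (Q.lt_H b) h.1

/-- `a` is a root -/
def Root (n a : ℕ) : Prop := ∃ i < n, ∀ b, ¬ Q.Anc n i b a

theorem mem_G {n a i : ℕ} {j : J} : j ∈ Q.G n a i ↔
    (∃ b, Q.Anc n i b a ∧ j ∈ Q.G n b i) ∨ (Q.Root n a ∧ (j ∈ Q.F a ∨ j = Q.c i a)) := by
  classical
  rw [G]
  have key : (∀ i' < n, ∃ b : Fin a, Q.H b ≤ a ∧ Q.G n b i' ⊆ T a) ↔ ¬ Q.Root n a := by
    unfold Root
    push Not
    constructor
    · intro h i' hi'
      obtain ⟨b, hb⟩ := h i' hi'
      exact ⟨b, hb⟩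
    · intro h i' hi'
      obtain ⟨b, hb⟩ := h i' hi'
      exact ⟨⟨b, hb.lt⟩, hb⟩
  rw [Finset.mem_union]
  apply or_congr
  · simp only [Finset.mem_biUnion, Finset.mem_filter, Finset.mem_univ, true_and]
    constructor
    · rintro ⟨b, hb, hj⟩
      exact ⟨b, hb, hj⟩
    · rintro ⟨b, hb, hj⟩
      exact ⟨⟨b, hb.lt⟩, hb, hj⟩
  · by_cases hR : Q.Root n a
    · rw [if_neg (by rw [key]; exact fun h => h hR)]
      simp [hR, or_comm]
    · rw [if_pos (by rw [key]; exact hR)]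
      simp [hR]

theorem G_sub {n : ℕ} : ∀ (a i : ℕ), ∀ j ∈ Q.G n a i, j ∈ T a ∨ j.1 = a := by
  intro a i j hj
  rw [mem_G] at hj
  rcases hj with ⟨b, hb, hj⟩ | ⟨_, hj | hj⟩
  · exact Or.inl (hb.2 hj)
  · exact Q.ok a j hj
  · exact Or.inr (by rw [hj]; rfl)

theorem G_anc {n i b a : ℕ} (h : Q.Anc n i b a) : Q.G n b i ⊆ Q.G n a i := by
  intro j hj
  rw [mem_G]
  exact Or.inl ⟨b, h, hj⟩

theorem anc_of_mem_O {n i a w : ℕ} (hw : w ∈ O a (Q.G n a i) (Q.H a)) (hne : w ≠ a) :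
    Q.Anc n i a w := by
  rcases hw with hw | hw
  · exact absurd hw hne
  · exact hw

theorem G_mono_O {n i a w : ℕ} (hw : w ∈ O a (Q.G n a i) (Q.H a)) : Q.G n a i ⊆ Q.G n w i := by
  by_cases hne : w = a
  · rw [hne]
  · exact Q.G_anc (Q.anc_of_mem_O hw hne)

theorem H_mono_O {n i a w : ℕ} (hw : w ∈ O a (Q.G n a i) (Q.H a)) : Q.H a ≤ Q.H w := by
  by_cases hne : w = a
  · rw [hne]
  · exact Q.H_mono (Q.anc_of_mem_O hw hne).lt.le

theorem O_G_trans {n i a w : ℕ} (hw : w ∈ O a (Q.G n a i) (Q.H a)) :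
    O w (Q.G n w i) (Q.H w) ⊆ O a (Q.G n a i) (Q.H a) := by
  by_cases hne : w = a
  · rw [hne]
  · exact O_trans hw hne (Q.G_mono_O hw) (Q.H_mono_O hw)

/-- every neighbourhood of the rule is inside a neighbourhood of the datum -/
theorem O_sub {n : ℕ} (i : ℕ) (hi : i < n) : ∀ a, ∃ b, O a (Q.G n a i) (Q.H a) ⊆ O b (Q.F b) (Q.h b) ∧
    Q.F b ⊆ Q.G n a i := by
  intro a
  induction a using Nat.strong_induction_on with
  | _ a ih =>
    by_cases hR : Q.Root n a
    · have hsub : Q.F a ⊆ Q.G n a i := by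
        intro j hj
        rw [mem_G]
        exact Or.inr ⟨hR, Or.inl hj⟩
      exact ⟨a, O_mono hsub (Q.h_le_H a), hsub⟩
    · unfold Root at hR
      push Not at hR
      obtain ⟨b, hb⟩ := hR i hi
      obtain ⟨b', h1, h2⟩ := ih b hb.lt
      refine ⟨b', ?_, h2.trans (Q.G_anc hb)⟩
      refine subset_trans ?_ h1
      exact Q.O_G_trans (Or.inr hb)

theorem exists_root {n : ℕ} {i : ℕ} {j : J} : ∀ a, j ∈ Q.G n a i → ¬ Q.Root n a →
    ∃ b, Q.Root n b ∧ Q.Anc n i b a ∧ j ∈ Q.G n b i := by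
  intro a
  induction a using Nat.strong_induction_on with
  | _ a ih =>
    intro hj hR
    rw [mem_G] at hj
    rcases hj with ⟨b, hb, hj⟩ | ⟨hR', _⟩
    · by_cases hRb : Q.Root n b
      · exact ⟨b, hRb, hb, hj⟩
      · obtain ⟨b', h1, h2, h3⟩ := ih b hb.lt hj hRb
        refine ⟨b', h1, ⟨?_, (Q.G_anc h2).trans hb.2⟩, h3⟩
        exact le_trans h2.1 hb.lt.le
    · exact absurd hR' hR

end LD

end Pool.Agent.H41.Ortho
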