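import Pool.Agent.H41.Ortho.Space

set_option autoImplicit false

/-!
# The domain is orthocompact, the range is not (MP_adc54a_gt)
-/

namespace Pool.Agent.H41.Ortho

theorem X_ortho (𝒰 : Set (Set XX)) (hU : ∀ u ∈ 𝒰, IsOpen u) (hcov : ⋃₀ 𝒰 = Set.univ) :
    ∃ 𝒱 : Set (Set XX), (∀ v ∈ 𝒱, IsOpen v) ∧ ⋃₀ 𝒱 = Set.univ ∧
      (∀ v ∈ 𝒱, ∃ u ∈ 𝒰, v ⊆ u) ∧ (∀ 𝒲 ⊆ 𝒱, IsOpen (⋂₀ 𝒲)) := by
  classical
  have hcov' : ∀ x, ∃ u ∈ 𝒰, x ∈ u := fun x => by
    have : x ∈ ⋃₀ 𝒰 := by rw [hcov]; trivial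
    exact this
  have hall : ∀ k a i, ∃ (F : Finset J) (h : ℕ) (C : Set DD),
      (∀ j ∈ F, j ∈ T a ∨ j.1 = a) ∧ FF C ∧ (i < nn k → ∃ u ∈ 𝒰, BB k a i F h C ⊆ u) := by
    intro k a i
    by_cases hi : i < nn k
    · obtain ⟨u, hu, hx⟩ := hcov' (XX.p k a i hi)
      obtain ⟨F, h, C, h1, h2, h3⟩ := (isOpen_X.1 (hU u hu)).1 k a i hi hx
      exact ⟨F, h, C, h1, h2, fun _ => ⟨u, hu, h3⟩⟩
    · exact ⟨∅, 0, Set.univ, by simp, FF_univ, fun h => absurd h hi⟩
  choose F h C hF hC hB using hall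
  -- the global datum
  let Q : GD := fun k =>
    { F := fun a => (Finset.range (nn k)).biUnion (F k a)
      h := fun a => (Finset.range (nn k)).sup (h k a)
      ok := by
        intro a j hj
        obtain ⟨i', _, hj⟩ := Finset.mem_biUnion.1 hj
        exact hF k a i' j hj }
  let C' : Set DD := {d | ∀ t : ℕ × ℕ × ℕ, d ∈ C t.1 t.2.1 t.2.2} ∩ CQ Q
  have hC' : FF C' := FF_inter (FF_all (fun t : ℕ × ℕ × ℕ => hC t.1 t.2.1 t.2.2)) (FF_CQ Q)
  have hC'sub : ∀ k a i, C' ⊆ C k a i := fun k a i d hd => hd.1 (k, a, i)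
  -- small neighbourhoods of the other diagonal points
  have hd : ∀ d : DD, ∃ k0, ∃ u ∈ 𝒰, ND k0 d ⊆ u := by
    intro d
    obtain ⟨u, hu, hx⟩ := hcov' (XX.d d)
    obtain ⟨k0, hk0⟩ := (isOpen_X.1 (hU u hu)).2 d hx
    exact ⟨k0, u, hu, hk0⟩
  choose k0 hk0 using hd
  let V : XX → Set XX := fun x =>
    match x with
    | XX.p k a i _ => BB k a i ((Q k).G (nn k) a i) ((Q k).H a) C'
    | XX.d d => if d ∈ C' then {z | z = XX.d d ∨ ∃ k j, j ∉ (Q k).G (nn k) (d.y k) (d.s k) ∧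
        z = XX.e d k j} else ND (k0 d) d
    | XX.e d k j => {XX.e d k j}
  have hVp : ∀ k a i hi, V (XX.p k a i hi) = BB k a i ((Q k).G (nn k) a i) ((Q k).H a) C' :=
    fun _ _ _ _ => rfl
  have hVd : ∀ d, d ∈ C' → V (XX.d d) = {z | z = XX.d d ∨
      ∃ k j, j ∉ (Q k).G (nn k) (d.y k) (d.s k) ∧ z = XX.e d k j} := fun d hd => if_pos hd
  have hVd' : ∀ d, d ∉ C' → V (XX.d d) = ND (k0 d) d := fun d hd => if_neg hd
  have hVe : ∀ d k j, V (XX.e d k j) = {XX.e d k j} := fun _ _ _ => rfl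
  -- openness
  have hVopen : ∀ x, IsOpen (V x) := by
    intro x
    cases x with
    | p k a i hi =>
      rw [hVp _ _ _ hi]
      exact BB_open ((Q k).G_sub a i) hC'
    | d d =>
      by_cases hd : d ∈ C'
      · rw [hVd d hd, isOpen_X]
        constructor
        · intro k a i hi hm
          simp at hm
        · intro d' hm
          have hdd : d' = d := by simpa using hm
          subst hdd
          obtain ⟨k1, hk1⟩ := hd.2
          refine ⟨k1, ?_⟩
          intro z hz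
          cases z with
          | p k' w i' hi' => exact absurd hz id
          | d d'' =>
            rw [ND_d] at hz
            left
            rw [hz]
          | e d'' k j =>
            rw [ND_e] at hz
            right
            refine ⟨k, j, fun hj => hz.2.2 (hk1 k hz.2.1 j hj), by rw [hz.1]⟩
      · rw [hVd' d hd]
        exact ND_open _ _
    | e d k j =>
      rw [hVe, isOpen_X]
      constructor
      · intro k a i hi hm
        simp at hm
      · intro d' hm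
        simp at hm
  have hVself : ∀ x, x ∈ V x := by
    intro x
    cases x with
    | p k a i hi =>
      rw [hVp _ _ _ hi]
      exact ⟨rfl, rfl, self_mem_O _ _ _⟩
    | d d =>
      by_cases hd : d ∈ C'
      · rw [hVd d hd]
        exact Or.inl rfl
      · rw [hVd' d hd]
        exact rfl
    | e d k j =>
      rw [hVe]
      exact rfl
  -- `V (d)` is inside `V (p 0 (y 0) (s 0))`, and more generally
  have hVdsub : ∀ d ∈ C', ∀ k a i (hi : i < nn k), XX.d d ∈ V (XX.p k a i hi) →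
      V (XX.d d) ⊆ V (XX.p k a i hi) := by
    intro d hd k a i hi hm
    rw [hVd d hd]
    rw [hVp _ _ _ hi] at hm ⊢
    rintro z (rfl | ⟨k', j, hj, rfl⟩)
    · exact hm
    · rw [BB_d] at hm
      rw [BB_e]
      refine ⟨hm.1, hm.2.1, hm.2.2, ?_⟩
      rintro rfl hj'
      apply hj
      have := (Q k').G_mono_O hm.2.2
      rw [hm.2.1]
      exact this hj'
  have htrans : ∀ x, ∀ z ∈ V x, V z ⊆ V x := by
    intro x z hz
    cases x with
    | p k a i hi =>
      cases z with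
      | p k' w i' hi' =>
        rw [hVp _ _ _ hi] at hz
        rw [BB_p] at hz
        obtain ⟨rfl, rfl, hw⟩ := hz
        rw [hVp _ _ _ hi', hVp _ _ _ hi]
        have h1 := (Q k').G_mono_O hw
        have h2 := (Q k').O_G_trans hw
        intro v hv
        cases v with
        | p k'' w'' i'' hi'' => exact ⟨hv.1, hv.2.1, h2 hv.2.2⟩
        | d d => exact ⟨hv.1, hv.2.1, h2 hv.2.2⟩
        | e d k'' j => exact ⟨hv.1, hv.2.1, h2 hv.2.2.1, fun hk hj => hv.2.2.2 hk (h1 hj)⟩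
      | d d =>
        exact hVdsub d (by rw [hVp _ _ _ hi] at hz; exact hz.1) k a i hi hz
      | e d k' j =>
        rw [hVe]
        exact Set.singleton_subset_iff.2 hz
    | d d =>
      cases z with
      | p k' w i' hi' =>
        by_cases hd : d ∈ C'
        · rw [hVd d hd] at hz
          simp at hz
        · rw [hVd' d hd] at hz
          exact absurd hz id
      | d d' =>
        have hdd : d' = d := by
          by_cases hd : d ∈ C'
          · rw [hVd d hd] at hz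
            simpa using hz
          · rw [hVd' d hd] at hz
            exact hz
        rw [hdd]
      | e d' k' j =>
        rw [hVe]
        exact Set.singleton_subset_iff.2 hz
    | e d k j =>
      rw [hVe] at hz
      rw [Set.mem_singleton_iff] at hz
      rw [hz]
  -- refinement
  have hVpref : ∀ k a i hi, ∃ u ∈ 𝒰, V (XX.p k a i hi) ⊆ u := by
    intro k a i hi
    rw [hVp _ _ _ hi]
    obtain ⟨b, hb1, hb2⟩ := (Q k).O_sub i hi a
    obtain ⟨u, hu, hsub⟩ := hB k b i hi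
    refine ⟨u, hu, ?_⟩
    have hF1 : F k b i ⊆ (Q k).F b := Finset.subset_biUnion_of_mem (F k b) (Finset.mem_range.2 hi)
    have hh1 : h k b i ≤ (Q k).h b := Finset.le_sup (f := h k b) (Finset.mem_range.2 hi)
    refine subset_trans ?_ (subset_trans (BB_mono hF1 hh1 (hC'sub k b i)) hsub)
    intro v hv
    cases v with
    | p k'' w'' i'' hi'' => exact ⟨hv.1, hv.2.1, hb1 hv.2.2⟩
    | d d => exact ⟨hv.1, hv.2.1, hb1 hv.2.2⟩
    | e d k'' j => exact ⟨hv.1, hv.2.1, hb1 hv.2.2.1, fun hk hj => hv.2.2.2 hk (hb2 hj)⟩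
  have hVref : ∀ x, ∃ u ∈ 𝒰, V x ⊆ u := by
    intro x
    cases x with
    | p k a i hi => exact hVpref k a i hi
    | d d =>
      by_cases hd : d ∈ C'
      · have hm : XX.d d ∈ V (XX.p 0 (d.y 0) (d.s 0) (d.hs 0)) := by
          rw [hVp _ _ _ (d.hs 0)]
          exact ⟨hd, rfl, self_mem_O _ _ _⟩
        obtain ⟨u, hu, hsub⟩ := hVpref 0 (d.y 0) (d.s 0) (d.hs 0)
        exact ⟨u, hu, (hVdsub d hd 0 (d.y 0) (d.s 0) (d.hs 0) hm).trans hsub⟩
      · rw [hVd' d hd]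
        exact hk0 d
    | e d k j =>
      obtain ⟨u, hu, hx⟩ := hcov' (XX.e d k j)
      exact ⟨u, hu, by rw [hVe]; exact Set.singleton_subset_iff.2 hx⟩
  refine ⟨Set.range V, ?_, ?_, ?_, ?_⟩
  · rintro _ ⟨x, rfl⟩
    exact hVopen x
  · rw [Set.eq_univ_iff_forall]
    intro x
    exact ⟨V x, ⟨x, rfl⟩, hVself x⟩
  · rintro _ ⟨x, rfl⟩
    exact hVref x
  · intro 𝒲 h𝒲
    rw [isOpen_iff_forall_mem_open]
    intro z hz
    refine ⟨V z, ?_, hVopen z, hVself z⟩
    intro v hv w hw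
    obtain ⟨x, rfl⟩ := h𝒲 hw
    exact htrans x z (hz _ hw) hv

/-- the sets of the bad cover -/
def UU (k : ℕ) (j : J) : Set YY := fun y =>
  match y with
  | YY.p k' a => k' = k ∧ (j ∈ T a ∨ j.1 = a)
  | YY.d d => j ∈ T (d.y k) ∨ j.1 = d.y k
  | YY.e d k' j' => (j ∈ T (d.y k) ∨ j.1 = d.y k) ∧ ¬ (k' = k ∧ j' = j)

/-- the rest of the bad cover -/
def UR : Set YY := fun y =>
  match y with
  | YY.p _ _ => False
  | YY.d _ => True
  | YY.e _ _ _ => True

theorem UU_open (k : ℕ) (j : J) : IsOpen (UU k j) := by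
  rw [isOpen_Y, isOpen_X]
  constructor
  · intro k' a i hi hm
    obtain ⟨rfl, hj⟩ : k' = k ∧ (j ∈ T a ∨ j.1 = a) := hm
    refine ⟨{j}, 0, Set.univ, ?_, FF_univ, ?_⟩
    · intro j' hj'
      rw [Finset.mem_singleton.1 hj']
      exact hj
    · have hO : ∀ w ∈ O a {j} 0, j ∈ T w ∨ j.1 = w := by
        rintro w (hw | hw)
        · rw [hw]; exact hj
        · exact Or.inl (hw.2 (Finset.mem_singleton_self j))
      intro x hx
      cases x with
      | p k'' w i' hi' => exact ⟨hx.1, hO w hx.2.2⟩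
      | d d => exact hO _ hx.2.2
      | e d k'' j' =>
        rw [BB_e] at hx
        refine ⟨hO _ hx.2.2.1, ?_⟩
        rintro ⟨h1, h2⟩
        exact hx.2.2.2 h1 (by rw [h2]; exact Finset.mem_singleton_self j)
  · intro d hm
    have hm' : j ∈ T (d.y k) ∨ j.1 = d.y k := hm
    refine ⟨k + 1, ?_⟩
    intro x hx
    cases x with
    | p k'' w i' hi' => exact absurd hx id
    | d d' =>
      rw [ND_d] at hx
      rw [hx]
      exact hm
    | e d' k' j' =>
      rw [ND_e] at hx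
      rw [hx.1]
      refine ⟨hm', ?_⟩
      rintro ⟨h1, -⟩
      omega

theorem UR_open : IsOpen UR := by
  rw [isOpen_Y, isOpen_X]
  constructor
  · intro k' a i hi hm
    exact absurd hm id
  · intro d hm
    refine ⟨0, ?_⟩
    intro x hx
    cases x with
    | p k'' w i' hi' => exact absurd hx id
    | d d' => exact trivial
    | e d' k' j' => exact trivial

theorem Y_not_ortho : ¬ (∀ 𝒰 : Set (Set YY), (∀ u ∈ 𝒰, IsOpen u) → ⋃₀ 𝒰 = Set.univ →
    ∃ 𝒱 : Set (Set YY), (∀ v ∈ 𝒱, IsOpen v) ∧ ⋃₀ 𝒱 = Set.univ ∧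
      (∀ v ∈ 𝒱, ∃ u ∈ 𝒰, v ⊆ u) ∧ (∀ 𝒲 ⊆ 𝒱, IsOpen (⋂₀ 𝒲))) := by
  classical
  intro hY
  obtain ⟨𝒱, hopen, hcov, href, hint⟩ := hY ({UR} ∪ {u | ∃ k j, u = UU k j}) (by
    rintro u (hu | ⟨k, j, rfl⟩)
    · rw [Set.mem_singleton_iff.1 hu]; exact UR_open
    · exact UU_open k j) (by
    rw [Set.eq_univ_iff_forall]
    intro y
    cases y with
    | p k a => exact ⟨UU k (a, 0), Or.inr ⟨k, (a, 0), rfl⟩, ⟨rfl, Or.inr rfl⟩⟩
    | d d => exact ⟨UR, Or.inl rfl, trivial⟩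
    | e d k j => exact ⟨UR, Or.inl rfl, trivial⟩)
  let W : YY → Set YY := fun y => ⋂₀ {v | v ∈ 𝒱 ∧ y ∈ v}
  have hWopen : ∀ y, IsOpen (W y) := fun y => hint _ (fun v hv => hv.1)
  have hWself : ∀ y, y ∈ W y := fun y v hv => hv.2
  have hWtrans : ∀ y z, z ∈ W y → W z ⊆ W y := by
    intro y z hz x hx v hv
    exact hx v ⟨hv.1, hz v hv⟩
  -- labels
  have hlab : ∀ k a, ∃ j : J, W (YY.p k a) ⊆ UU k j := by
    intro k a
    have : YY.p k a ∈ ⋃₀ 𝒱 := by rw [hcov]; trivial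
    obtain ⟨v, hv, hyv⟩ := this
    obtain ⟨u, hu, hvu⟩ := href v hv
    rcases hu with hu | ⟨k', j, rfl⟩
    · rw [Set.mem_singleton_iff.1 hu] at hvu
      exact absurd (hvu hyv) id
    · have h1 : k = k' := (hvu hyv).1
      subst h1
      exact ⟨j, fun x hx => hvu (hx v ⟨hv, hyv⟩)⟩
  choose lab hlab using hlab
  -- the data
  have hall : ∀ k a i, ∃ (F : Finset J) (h : ℕ) (C : Set DD),
      FF C ∧ (i < nn k → BB k a i F h C ⊆ ff ⁻¹' (W (YY.p k a))) := by
    intro k a i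
    by_cases hi : i < nn k
    · obtain ⟨F, h, C, h1, h2, h3⟩ := (isOpen_X.1 (isOpen_Y.1 (hWopen (YY.p k a)))).1 k a i hi
        (hWself _)
      exact ⟨F, h, C, h2, fun _ => h3⟩
    · exact ⟨∅, 0, Set.univ, FF_univ, fun h => absurd h hi⟩
  choose F h C hC hB using hall
  obtain ⟨𝒬, h𝒬c, h𝒬⟩ := FF_all (fun t : ℕ × ℕ × ℕ => hC t.1 t.2.1 t.2.2)
  obtain ⟨Q, hQ⟩ : ∃ Q : ℕ → GD, 𝒬 ⊆ Set.range Q := by
    obtain ⟨Q, hQ⟩ := (h𝒬c.insert (default : GD)).exists_eq_range (Set.insert_nonempty _ _)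
    exact ⟨Q, by rw [← hQ]; exact Set.subset_insert _ _⟩
  -- the diagonal point
  have hP : ∀ k, ∃ y s, s < nn k ∧ ∀ r < k, lab k y ∉ (Q r k).G (nn k) y s := by
    intro k
    obtain ⟨y, hy⟩ := lemmaP k (nn k) (Nat.lt_succ_self _) (fun r => Q r k)
    obtain ⟨s, hs, hs'⟩ := hy (lab k y)
    exact ⟨y, s, hs, hs'⟩
  choose y s hs hys using hP
  let d : DD := ⟨y, s, hs, fun k => {j | ∃ r < k, j ∈ (Q r k).G (nn k) (y k) (s k)}⟩
  have hdQ : ∀ r, d ∈ CQ (Q r) := by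
    intro r
    refine ⟨r + 1, ?_⟩
    intro k hk j hj
    exact ⟨r, by omega, hj⟩
  have hdC : ∀ k a i, d ∈ C k a i := by
    intro k a i
    have := h𝒬 d (by
      intro Q' hQ'
      obtain ⟨r, rfl⟩ := hQ hQ'
      exact hdQ r)
    exact this (k, a, i)
  have hdW : ∀ k, YY.d d ∈ W (YY.p k (y k)) := by
    intro k
    have h1 : XX.d d ∈ BB k (y k) (s k) (F k (y k) (s k)) (h k (y k) (s k)) (C k (y k) (s k)) :=
      ⟨hdC _ _ _, rfl, self_mem_O _ _ _⟩
    exact hB k (y k) (s k) (hs k) h1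
  have hWd : ∀ k, W (YY.d d) ⊆ UU k (lab k (y k)) := fun k =>
    (hWtrans _ _ (hdW k)).trans (hlab k (y k))
  obtain ⟨k0, hk0⟩ := (isOpen_X.1 (isOpen_Y.1 (hWopen (YY.d d)))).2 d (hWself _)
  have he : XX.e d k0 (lab k0 (y k0)) ∈ ND k0 d := by
    rw [ND_e]
    refine ⟨rfl, le_rfl, ?_⟩
    rintro ⟨r, hr, hj⟩
    exact hys k0 r hr hj
  have := hWd k0 (hk0 he)
  exact this.2 ⟨rfl, rfl⟩

end Pool.Agent.H41.Ortho
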